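import Pool.Agent.helper75.NR.IDX
import Pool.Agent.helper12.NR.EDG
import Pool.Agent.helper61.NR.DEG
import Pool.Agent.helper81.NR.PAR
import Pool.Agent.helper53.NR.PCF
import Pool.Agent.helper21.NR.PCN
import Pool.Agent.helper79.NR.PPL
import Pool.Agent.helper79.NR.PMI
import Pool.Agent.helper71.NR.BAD
import Pool.Agent.helper90.NR.NVQ
import Pool.Agent.helper85.NR.LOW
import Pool.Agent.helper11.NRV.UPP
import Pool.Agent.helper64.NR.SUQ
import Pool.Agent.helper58.NR.ARI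
import Pool.Agent.helper50.NR.GE8
import Pool.Agent.helper96.NR.WW0
import Pool.Agent.helper95.NR.LIN
import Pool.Agent.helper63.NR.CNT
import Pool.Agent.helper99.NR.GCN
import Pool.Agent.helper16.NR.XCL
import Pool.Agent.helper31.NR.WLK
import Pool.Agent.helper87.NR.WLX
import Pool.Agent.helper44.NR.VXS
import Pool.Agent.helper21.NR.VYS
import Pool.Agent.helper69.NR.CLS
import Pool.Agent.helper61.NR.CCT
import Pool.Agent.helper65.NR.TOP
import Pool.Agent.helper45.NR.FIN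

/-! Assembly of project NR (MP_133bfc_co). -/

set_option autoImplicit false

namespace Pool.Agent.helper84.NR

theorem h_IDX : IDX_stmt := IDX
theorem h_EDG : EDG_stmt := EDG h_IDX
theorem h_DEG : DEG_stmt := DEG h_IDX h_EDG
theorem h_PAR : PAR_stmt := PAR h_IDX
theorem h_WW0 : WW0_stmt := WW0
theorem h_PCF : PCF_stmt := PCF h_IDX h_EDG
theorem h_PCN : PCN_stmt := PCN h_EDG
theorem h_PPL : PPL_stmt := PPL h_IDX h_EDG
theorem h_PMI : PMI_stmt := PMI h_IDX h_EDG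
theorem h_BAD : BAD_stmt := BAD h_PCF h_PCN h_PPL h_PMI
theorem h_NVQ : NVQ_stmt := NVQ h_EDG h_DEG
theorem h_LOW : LOW_stmt := LOW h_IDX h_EDG h_DEG
theorem h_UPP : UPP_stmt := UPP h_IDX h_EDG h_DEG
theorem h_SUQ : SUQ_stmt := SUQ h_EDG
theorem h_GE8 : GE8_stmt := GE8 h_NVQ h_LOW h_UPP h_SUQ ARI
theorem h_LIN : LIN_stmt := LIN
theorem h_CNT : CNT_stmt := CNT h_IDX h_EDG h_DEG h_WW0
theorem h_GCN : GCN_stmt := GCN h_IDX h_EDG h_WW0
theorem h_XCL : XCL_stmt := XCL h_IDX h_WW0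
theorem h_WLK : WLK_stmt := WLK h_IDX h_PAR h_WW0
theorem h_WLX : WLX_stmt := WLX h_IDX h_DEG h_PAR h_WW0
theorem h_VXS : VXS_stmt := VXS h_DEG h_PAR
theorem h_VYS : VYS_stmt := VYS h_IDX h_EDG h_DEG h_PAR h_WW0
theorem h_CLS : CLS_stmt := CLS h_IDX h_WW0 h_WLK h_WLX h_VXS h_VYS
theorem h_CCT : CCT_stmt := CCT h_XCL h_CLS
theorem h_TOP : TOP_stmt := TOP h_LIN h_CNT h_GCN h_CCT h_EDG
theorem h_FIN : FIN_stmt := FIN h_IDX h_EDG h_WW0 h_BAD h_GE8 h_TOP

end Pool.Agent.helper84.NR
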