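import Pool.Agent.helper84.NR.SpecW
import Pool.Agent.helper64.NRW.RTA
import Pool.Agent.helper45.NRW.CA1
import Pool.Agent.helper34.NRW.CA2
import Pool.Agent.helper24.NRW.RT
import Pool.Agent.helper13.NRW.WAL
import Pool.Agent.helper31.NRW.RT0
import Pool.Agent.helper23.NRW.BIP
import Pool.Agent.helper50.NRW.EXX
import Pool.Agent.helper59.NRW.GEW
import Pool.Agent.helper2.NRW.FRM
import Pool.Agent.helper16.NRW.CNTW
import Pool.Agent.helper46.NRW.GCNW
import Pool.Agent.helper16.NRW.XCLW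
import Pool.Agent.helper31.NRW.WLKW
import Pool.Agent.helper44.NRW.VXSW
import Pool.Agent.helper85.NRW.VYSW
import Pool.Agent.helper32.NRW.STE
import Pool.Agent.helper68.NRW.WLXW
import Pool.Agent.helper72.NRW.CXE
import Pool.Agent.helper40.NRW.CLO
import Pool.Agent.helper98.NRW.CLSW
import Pool.Agent.helper82.NRW.RL2
import Pool.Agent.helper87.NRW.RHO
import Pool.Agent.helper6.NRW.CCTW
import Pool.Agent.helper22.NRW.TOPW
import Pool.Agent.helper73.NRW.FINW

/-!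
Assembly of Theorem W (MP_133bfc_co).
-/

set_option autoImplicit false

namespace Pool.Agent.helper84.NR

theorem h_RTA : RTA_stmt := RTA 
theorem h_CA1 : CA1_stmt := CA1 
theorem h_CA2 : CA2_stmt := CA2 
theorem h_RT : RT_stmt := RT h_RTA h_CA1 h_CA2
theorem h_WAL : WAL_stmt := WAL 
theorem h_RT0 : RT0_stmt := RT0 h_WAL h_RTA
theorem h_BIP : BIP_stmt := BIP 
theorem h_EXX : EXX_stmt := EXX 
theorem h_GEW : GEW_stmt := GEW h_BIP h_EXX h_RT h_RT0
theorem h_FRM : FRM_stmt := FRM 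
theorem h_CNTW : CNTW_stmt := CNTW 
theorem h_GCNW : GCNW_stmt := GCNW 
theorem h_XCLW : XCLW_stmt := XCLW 
theorem h_WLKW : WLKW_stmt := WLKW 
theorem h_VXSW : VXSW_stmt := VXSW 
theorem h_VYSW : VYSW_stmt := VYSW 
theorem h_STE : STE_stmt := STE 
theorem h_WLXW : WLXW_stmt := WLXW h_STE
theorem h_CXE : CXE_stmt := CXE h_WLKW h_VYSW
theorem h_CLO : CLO_stmt := CLO h_STE
theorem h_CLSW : CLSW_stmt := CLSW h_CXE h_CLO h_WLXW h_WLKW h_VXSW
theorem h_RL2 : RL2_stmt := RL2 h_STE h_CLO h_WLXW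
theorem h_RHO : RHO_stmt := RHO h_RL2
theorem h_CCTW : CCTW_stmt := CCTW h_XCLW h_CLSW h_RHO
theorem h_TOPW : TOPW_stmt := TOPW h_CNTW h_GCNW h_CCTW
theorem h_FINW : FINW_stmt := FINW h_GEW h_FRM h_TOPW

end Pool.Agent.helper84.NR
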