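import Mathlib

/-!
# Polyhedral maps on closed surfaces and nonrevisiting paths (MP_133bfc_co): definitions
-/

set_option autoImplicit false

namespace Pool.Agent.helper84.NR

open scoped Classical

/-- A finite family of cycles (the boundary cycles of the faces) on a finite set of vertices.
The boundary cycle of the face `f` is `bd f 0, bd f 1, ..., bd f (len f - 1)`; `bd f` is continued
with period `len f`. -/
structure Cyc (V F : Type) where
  len : F → ℕ
  three : ∀ f, 3 ≤ len f
  bd : F → ℕ → V
  per : ∀ f k, bd f (k + len f) = bd f k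
  inj : ∀ f i j, i < len f → j < len f → bd f i = bd f j → i = j

variable {V F : Type}

/-- The vertex `v` lies on the face `f`. -/
def OnV (M : Cyc V F) (f : F) (v : V) : Prop := ∃ k, M.bd f k = v

/-- The edge `e` lies on the face `f` (two consecutive vertices of the boundary cycle). -/
def OnE (M : Cyc V F) (f : F) (e : Sym2 V) : Prop := ∃ k, e = s(M.bd f k, M.bd f (k + 1))

/-- `e` is an edge of the map. -/
def IsE (M : Cyc V F) (e : Sym2 V) : Prop := ∃ f, OnE M f e

/-- Adjacent vertices. -/
def Adj (M : Cyc V F) (u v : V) : Prop := IsE M s(u, v)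

/-- A polyhedral map on a closed connected surface, given by the boundary cycles of its faces:
every vertex is on a face; every edge is on exactly two faces; the faces at a vertex are connected
through the edges at this vertex (so they form one cycle: the space is a closed surface);
the surface is connected; two distinct faces meet in the empty set, in a single vertex or in a
single edge. -/
structure PMap (V F : Type) extends Cyc V F where
  cover : ∀ v, ∃ f, OnV toCyc f v
  two : ∀ e f, OnE toCyc f e →
    ∃ g, g ≠ f ∧ OnE toCyc g e ∧ ∀ h, OnE toCyc h e → h = f ∨ h = g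
  link : ∀ (v : V) (S : Set F),
    (∀ e : Sym2 V, v ∈ e → ∀ f g, OnE toCyc f e → OnE toCyc g e → f ∈ S → g ∈ S) →
    ∀ f g, OnV toCyc f v → OnV toCyc g v → f ∈ S → g ∈ S
  conn : ∀ S : Set F, (∀ e f g, OnE toCyc f e → OnE toCyc g e → f ∈ S → g ∈ S) →
    ∀ f g, f ∈ S → g ∈ S
  poly : ∀ f g, f ≠ g → ∀ u v, u ≠ v → OnV toCyc f u → OnV toCyc f v → OnV toCyc g u →
    OnV toCyc g v → OnE toCyc f s(u, v) ∧ OnE toCyc g s(u, v) ∧
      ∀ w, OnV toCyc f w → OnV toCyc g w → w = u ∨ w = v

/-- The Euler characteristic `V - E + F`. -/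
noncomputable def chi [Fintype V] [Fintype F] (M : Cyc V F) : ℤ :=
  (Fintype.card V : ℤ) - ((Finset.univ.filter (fun e : Sym2 V => IsE M e)).card : ℤ) +
    (Fintype.card F : ℤ)

/-- There is a nonrevisiting path from `x` to `y`: a path `q 0 = x, q 1, ..., q n = y` in the graph,
without repeated vertices, such that for every face `f` the set `p ∩ ∂f` is connected, i.e. if
`q i` and `q j` (`i ≤ j`) are on `f` then all edges of the path between them are on `f`. -/
def NRPath (M : Cyc V F) (x y : V) : Prop :=
  ∃ (n : ℕ) (q : ℕ → V), q 0 = x ∧ q n = y ∧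
    (∀ i j, i ≤ n → j ≤ n → q i = q j → i = j) ∧
    (∀ i, i < n → Adj M (q i) (q (i + 1))) ∧
    ∀ f i j, i ≤ j → j ≤ n → OnV M f (q i) → OnV M f (q j) →
      ∀ k, i ≤ k → k < j → OnE M f s(q k, q (k + 1))

end Pool.Agent.helper84.NR
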