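import Pool.Agent.helper84.NR.Defs

/-!
# Project NR (MP_133bfc_co): spec

Final theorem `FIN_stmt`: polyhedral map with `χ ≥ -1` (so on the nonorientable surface of genus 3,
which is the only closed surface with `χ = -1`), vertices `x`, `y` such that every neighbour of `x`
lies on a face with `y`: then `x`, `y` are joined by a nonrevisiting path.

Row `XX`: file `Pool/Agent/<seat>/NR/XX.lean`, `import Pool.Agent.helper84.NR.Spec`,
`namespace Pool.Agent.helper84.NR`, `open scoped Classical`, `open Finset`,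
`theorem XX (h1 : YY_stmt) .. : XX_stmt`.
All rows are independent of each other (the hypotheses are listed in the docstrings; any other
statement of this file may be used as a further hypothesis, no circles). Auxiliary lemmas `XX_...`.
Write `M` for `M.toCyc` where a `Cyc` is needed.
-/

set_option autoImplicit false

namespace Pool.Agent.helper84.NR

open scoped Classical
open Finset

/-! ## Basic facts -/

/-- Hyp.: none. For a face `f`, a start `k0` and indices `a, b < len f` (write `u a = bd f (k0 + a)`):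
`u` is injective on `[0, len f)`; every vertex (edge) of `f` is some `u a` (`s(u a, u (a+1))`),
`a < len f`; for `a < b`, `s(u a, u b)` is an edge of `f` only if `b = a + 1` or
(`a = 0` and `b = len f - 1`). Proof: periodicity (`bd f k` depends only on `k % len f`) and `inj`. -/
def IDX_stmt : Prop := ∀ (V F : Type) (M : Cyc V F) (f : F) (k0 : ℕ),
  (∀ a b, a < M.len f → b < M.len f → M.bd f (k0 + a) = M.bd f (k0 + b) → a = b) ∧
  (∀ v, OnV M f v → ∃ a, a < M.len f ∧ M.bd f (k0 + a) = v) ∧
  (∀ e, OnE M f e → ∃ a, a < M.len f ∧ e = s(M.bd f (k0 + a), M.bd f (k0 + a + 1))) ∧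
  (∀ a b, a < b → b < M.len f → OnE M f s(M.bd f (k0 + a), M.bd f (k0 + b)) →
    b = a + 1 ∨ (a = 0 ∧ b = M.len f - 1)) ∧
  M.bd f (k0 + M.len f) = M.bd f k0

/-- Hyp.: none. Ends of an edge of `f` are distinct vertices of `f`; a face containing both ends of an
edge contains the edge (`poly`). -/
def EDG_stmt : Prop := ∀ (V F : Type) (M : PMap V F),
  (∀ f u v, OnE M.toCyc f s(u, v) → OnV M.toCyc f u ∧ OnV M.toCyc f v ∧ u ≠ v) ∧
  (∀ f u v, Adj M.toCyc u v → OnV M.toCyc f u → OnV M.toCyc f v → OnE M.toCyc f s(u, v))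

/-- Hyp.: IDX, EDG. Faces at a vertex `z`.
(1) a vertex `v ≠ z` not adjacent to `z` is on at most one face with `z` (`poly` gives the edge);
(2) `v` adjacent to `z`: exactly two faces contain both (those of the edge `zv`, by `two`; EDG);
(3) a face containing `z` contains exactly two neighbours of `z`: with `bd A k0 = z` these are
`u 1` and `u (len A - 1)` (IDX, EDG: a neighbour on `A` gives the edge on `A`);
(4) number of faces at `z` = number of neighbours (double counting of (2) and (3));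
(5) `v ≠ z` on a face with `z`: exactly two edges at `v` lie on a face containing `z` and do not
contain `z` (`v` not adjacent: its two edges on the unique face; `v` adjacent: one edge on each of the
two faces, distinct as two faces have at most two common vertices). -/
def DEG_stmt : Prop := ∀ (V F : Type) [Fintype V] [Fintype F] (M : PMap V F) (z : V),
  (∀ v A A', v ≠ z → ¬ Adj M.toCyc z v → OnV M.toCyc A z → OnV M.toCyc A v →
    OnV M.toCyc A' z → OnV M.toCyc A' v → A = A') ∧
  (∀ v, Adj M.toCyc z v →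
    (univ.filter (fun A => OnV M.toCyc A z ∧ OnV M.toCyc A v)).card = 2) ∧
  (∀ A, OnV M.toCyc A z →
    (univ.filter (fun v => Adj M.toCyc z v ∧ OnV M.toCyc A v)).card = 2) ∧
  (univ.filter (fun A => OnV M.toCyc A z)).card = (univ.filter (fun v => Adj M.toCyc z v)).card ∧
  (∀ v, v ≠ z → (∃ A, OnV M.toCyc A z ∧ OnV M.toCyc A v) →
    (univ.filter (fun e : Sym2 V => v ∈ e ∧ z ∉ e ∧
      ∃ A, OnV M.toCyc A z ∧ OnE M.toCyc A e)).card = 2)

/-- Hyp.: none (or IDX). Parity: for every set `S` of faces and every vertex `v` the number of edges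
at `v` with one face in `S` and one face not in `S` is even.  Proof: each face at `v` has exactly two
edges at `v` and each edge has exactly two faces; so `∑_{f ∈ S, v ∈ f} 2 = ∑_{e ∋ v} #(faces of e in S)`,
which is congruent mod 2 to the number of the separating edges. -/
def PAR_stmt : Prop := ∀ (V F : Type) [Fintype V] [Fintype F] (M : PMap V F) (S : Set F) (v : V),
  Even (univ.filter (fun e : Sym2 V => v ∈ e ∧ (∃ f, OnE M.toCyc f e ∧ f ∈ S) ∧
    ∃ g, OnE M.toCyc g e ∧ g ∉ S)).card

/-! ## Routes -/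

/-- Hyp.: IDX, EDG. Common face: if `x`, `y` are adjacent use the edge, otherwise an arc of the common
face `f`, `x = u 0`, `y = u b`: `q i = u i`, `i ≤ b`. A face `g ≠ f` containing `u i`, `u j` (`i < j ≤ b`)
gives an edge `s(u i, u j)` of `f` (`poly`), so `j = i + 1` (`i = 0, j = len f - 1 = b` would be the
edge `xy`). `x = y`: `n = 0`. -/
def PCF_stmt : Prop := ∀ (V F : Type) (M : PMap V F) (x y : V) (f : F),
  OnV M.toCyc f x → OnV M.toCyc f y → NRPath M.toCyc x y

/-- Hyp.: EDG. Common neighbour: the path `x, s, y`. -/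
def PCN_stmt : Prop := ∀ (V F : Type) (M : PMap V F) (x y s : V),
  (∀ f, ¬ (OnV M.toCyc f x ∧ OnV M.toCyc f y)) → Adj M.toCyc x s → Adj M.toCyc s y →
    NRPath M.toCyc x y

/-- Hyp.: IDX, EDG. The route `x, u k, u (k+1), ..., u (n-1), u n = y`, where `n = len f`,
`u i = bd f (k0 + i)`, `u 0 = y`. So `q 0 = x`, `q i = u (k + i - 1)` for `1 ≤ i ≤ n - k + 1`.
Nonrevisiting: let `i < j`, `q i, q j ∈ g`. If `i ≥ 1`: `g = f` clear; `g ≠ f`: `poly` gives the edge
`s(q i, q j)` of `f`, by IDX `j = i + 1` or (indices `u 1` and `u n = u 0 = y`, `k = 1, i = 1`: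
then `u k` is adjacent to `x` and `y`, excluded). If `i = 0`: `g ∋ x`, `g ∋ u b`, `b = k + j - 1`;
`b = n` is excluded (no common face); if `b > k` the hypothesis `hfree` gives `u k ∈ g`; so
`u k ∈ g` in all cases, the edge `s(x, u k)` is on `g` (EDG), the rest is the case `i = 1`. -/
def PPL_stmt : Prop := ∀ (V F : Type) (M : PMap V F) (x y : V) (f : F) (k0 k : ℕ),
  (∀ g, ¬ (OnV M.toCyc g x ∧ OnV M.toCyc g y)) →
  (∀ s, Adj M.toCyc x s → ¬ Adj M.toCyc s y) →
  M.bd f k0 = y → 1 ≤ k → k < M.len f → Adj M.toCyc x (M.bd f (k0 + k)) →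
  (∀ k', k < k' → k' < M.len f → ∀ A, OnV M.toCyc A x → OnV M.toCyc A (M.bd f (k0 + k')) →
    OnV M.toCyc A (M.bd f (k0 + k))) →
  NRPath M.toCyc x y

/-- Hyp.: IDX, EDG. The mirror image of PPL: `x, u k, u (k-1), ..., u 1, u 0 = y`; `q 0 = x`,
`q i = u (k + 1 - i)` for `1 ≤ i ≤ k + 1`. -/
def PMI_stmt : Prop := ∀ (V F : Type) (M : PMap V F) (x y : V) (f : F) (k0 k : ℕ),
  (∀ g, ¬ (OnV M.toCyc g x ∧ OnV M.toCyc g y)) →
  (∀ s, Adj M.toCyc x s → ¬ Adj M.toCyc s y) →
  M.bd f k0 = y → 1 ≤ k → k < M.len f → Adj M.toCyc x (M.bd f (k0 + k)) →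
  (∀ k', 1 ≤ k' → k' < k → ∀ A, OnV M.toCyc A x → OnV M.toCyc A (M.bd f (k0 + k')) →
    OnV M.toCyc A (M.bd f (k0 + k))) →
  NRPath M.toCyc x y

/-- The situation without nonrevisiting path. -/
structure Bad {V F : Type} (M : PMap V F) (x y : V) : Prop where
  ne : ∀ f, ¬ (OnV M.toCyc f x ∧ OnV M.toCyc f y)
  nn : ∀ s, Adj M.toCyc x s → ¬ Adj M.toCyc s y
  nb : ∀ s, Adj M.toCyc x s → ∃ f, OnV M.toCyc f s ∧ OnV M.toCyc f y
  bp : ∀ f k0 k, M.bd f k0 = y → 1 ≤ k → k < M.len f → Adj M.toCyc x (M.bd f (k0 + k)) →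
    ∃ k', k < k' ∧ k' < M.len f ∧ ∃ A, OnV M.toCyc A x ∧ OnV M.toCyc A (M.bd f (k0 + k')) ∧
      ¬ OnV M.toCyc A (M.bd f (k0 + k))
  bm : ∀ f k0 k, M.bd f k0 = y → 1 ≤ k → k < M.len f → Adj M.toCyc x (M.bd f (k0 + k)) →
    ∃ k', 1 ≤ k' ∧ k' < k ∧ ∃ A, OnV M.toCyc A x ∧ OnV M.toCyc A (M.bd f (k0 + k')) ∧
      ¬ OnV M.toCyc A (M.bd f (k0 + k))

/-- Hyp.: PCF, PCN, PPL, PMI. -/
def BAD_stmt : Prop := ∀ (V F : Type) (M : PMap V F) (x y : V),
  (∀ s, Adj M.toCyc x s → ∃ f, OnV M.toCyc f s ∧ OnV M.toCyc f y) → ¬ NRPath M.toCyc x y →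
    Bad M x y

/-! ## Counting at the faces containing `y` -/

section
variable {V F : Type} [Fintype V] [Fintype F]

/-- vertices of `B` on a face containing `x` -/
noncomputable def shV (M : PMap V F) (x : V) (B : F) : Finset V :=
  univ.filter (fun v => OnV M.toCyc B v ∧ ∃ A, OnV M.toCyc A x ∧ OnV M.toCyc A v)

/-- edges of `B` on a face containing `x` -/
noncomputable def shE (M : PMap V F) (x : V) (B : F) : Finset (Sym2 V) :=
  univ.filter (fun e => OnE M.toCyc B e ∧ ∃ A, OnV M.toCyc A x ∧ OnE M.toCyc A e)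

/-- neighbours of `x` on `B` -/
noncomputable def QQ (M : PMap V F) (x : V) (B : F) : Finset V :=
  univ.filter (fun s => Adj M.toCyc x s ∧ OnV M.toCyc B s)

/-- faces containing `x` which meet `B` -/
noncomputable def NN (M : PMap V F) (x : V) (B : F) : Finset F :=
  univ.filter (fun A => OnV M.toCyc A x ∧ ∃ v, OnV M.toCyc A v ∧ OnV M.toCyc B v)

/-- faces containing `x` which contain two neighbours of `x` on `B` -/
noncomputable def PP (M : PMap V F) (x : V) (B : F) : Finset F :=
  univ.filter (fun A => OnV M.toCyc A x ∧ ∃ s s', s ≠ s' ∧ Adj M.toCyc x s ∧ Adj M.toCyc x s' ∧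
    OnV M.toCyc A s ∧ OnV M.toCyc A s' ∧ OnV M.toCyc B s ∧ OnV M.toCyc B s')

/-- faces containing `y` -/
noncomputable def YF (M : PMap V F) (y : V) : Finset F := univ.filter (fun f => OnV M.toCyc f y)

end

/-- Hyp.: EDG, DEG. Count the pairs `(A, v)`, `A ∋ x`, `v ∈ A ∩ B`. A vertex `v` of `shV` is on exactly
one such `A` if it is not a neighbour of `x`, on exactly two if it is (DEG (1), (2); `v ≠ x` as
`x ∉ B`). A face `A ∋ x` has with `B` no common vertex, exactly one and no common edge, or exactly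
two and exactly one common edge (`poly`, `A ≠ B`); an edge of `B` is on at most one further face.
So `V_B + Q_B = N_B + E_B`. -/
def NVQ_stmt : Prop := ∀ (V F : Type) [Fintype V] [Fintype F] (M : PMap V F) (x : V) (B : F),
  ¬ OnV M.toCyc B x → (shV M x B).card + (QQ M x B).card = (NN M x B).card + (shE M x B).card

/-- Hyp.: IDX, EDG, DEG. Let `W` be the set of the faces `A ∋ x` which contain some `s ∈ QQ`;
`W.card = 2 Q - P` (each `s` is on exactly two such faces, DEG (2); a face has at most two of them,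
DEG (3), and exactly two iff it is in `PP`). Let `u k = bd B (k0 + k)`, `u 0 = y`; `k` the smallest and
`l` the largest index in `[1, len B)` with `u k`, `u l` adjacent to `x`. `bm` gives `k1 < k` and
`A1 ∋ x, u k1`, `A1 ∌ u k`. `A1 ∉ W`: a neighbour `s = u k''` of `x` on `A1` has `k'' > k > k1` and then
`A1 ∩ B ∋ u k1, u k''`, so these are adjacent on `B` (`poly`), but `k'' ≥ k1 + 2` and `k1 ≥ 1` (IDX).
Similarly `A2`, `k2 > l`. `A1 ≠ A2` by the same argument (`k2 ≥ k1 + 2`). All of `W`, `A1`, `A2` are in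
`NN`. So `N ≥ 2 Q - P + 2`. -/
def LOW_stmt : Prop := ∀ (V F : Type) [Fintype V] [Fintype F] (M : PMap V F) (x y : V) (B : F),
  Bad M x y → OnV M.toCyc B y → (QQ M x B).Nonempty →
    2 * (QQ M x B).card + 2 ≤ (NN M x B).card + (PP M x B).card

/-- Hyp.: IDX, EDG, DEG. The sets `NN B` and `PP B'` (`B' ∋ y`, `B' ≠ B`) are pairwise disjoint sets of
faces containing `x`, whose number is the number of neighbours of `x` (DEG (4)).
`A ∈ PP B'`: `s, s' ∈ A ∩ B'`, so `s(s, s')` is an edge of `A` (`poly`), as are `s(x, s)`, `s(x, s')`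
(EDG); hence `A` is a triangle: its only vertices are `x, s, s'` (IDX: `x = u 0`, then
`{s, s'} = {u 1, u (len - 1)}`, adjacent, so `len A = 3`). If `A` meets `B ∋ y` then (`x ∉ B`) say
`s ∈ B`; `s, y ∈ B ∩ B'` gives an edge `s(s, y)`, against `nn`. The same for two sets `PP`. -/
def UPP_stmt : Prop := ∀ (V F : Type) [Fintype V] [Fintype F] (M : PMap V F) (x y : V) (B : F),
  Bad M x y → OnV M.toCyc B y →
    (NN M x B).card + ∑ B' ∈ (YF M y).erase B, (PP M x B').card ≤
      (univ.filter (fun v => Adj M.toCyc x v)).card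

/-- Hyp.: EDG. Every neighbour `s` of `x` is on exactly one face containing `y` (existence `nb`;
two such faces give the edge `s(s, y)` by `poly`, against `nn`; `s ≠ y` by `ne`). -/
def SUQ_stmt : Prop := ∀ (V F : Type) [Fintype V] [Fintype F] (M : PMap V F) (x y : V),
  Bad M x y → ∑ B ∈ YF M y, (QQ M x B).card = (univ.filter (fun v => Adj M.toCyc x v)).card

/-- Hyp.: none. Arithmetic. With `a = d - ∑ P`, `β = Q - P`: for `j ∈ J` (the set where `Q > 0`)
`2 β_j + 2 ≤ a`, `v_j - e_j - 1 = N_j - Q_j - 1 ≥ β_j + 1`; `∑_J β = a` (`Q_j = 0` implies `P_j = 0`);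
`a ≥ 0` (`N_j ≥ P_j`). With `n = |J| ≥ 1`: `2 a ≤ n (a - 2)`, i.e. `(n - 2)(a - 2) ≥ 4`, so `n, a ≥ 3`
and `a + n ≥ 8`. -/
def ARI_stmt : Prop := ∀ (F : Type) (Y : Finset F) (v e Q N P : F → ℤ) (d : ℤ),
  (∀ j ∈ Y, 0 ≤ Q j ∧ 0 ≤ P j ∧ P j ≤ N j ∧ (Q j = 0 → P j = 0) ∧ v j + Q j = N j + e j) →
  (∀ j ∈ Y, Q j ≠ 0 → 2 * Q j + 2 ≤ N j + P j) →
  (∀ j ∈ Y, N j + ∑ k ∈ Y.erase j, P k ≤ d) → ∑ j ∈ Y, Q j = d → 0 < d →
  8 ≤ ∑ j ∈ Y.filter (fun j => Q j ≠ 0), (v j - e j - 1)

/-- Hyp.: NVQ, LOW, UPP, SUQ, ARI (and EDG for: `x` has a neighbour). Apply ARI with `Y = YF M y`,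
the cardinalities as integers, `d` = number of neighbours of `x`. -/
def GE8_stmt : Prop := ∀ (V F : Type) [Fintype V] [Fintype F] (M : PMap V F) (x y : V),
  Bad M x y →
    8 ≤ ∑ B ∈ (YF M y).filter (fun B => (QQ M x B).Nonempty),
      (((shV M x B).card : ℤ) - (shE M x B).card - 1)

/-! ## The topological inequality -/

section
variable {V F : Type}

/-- A start index of the face `f` at the vertex `y`. -/
noncomputable def st (M : PMap V F) (y : V) (f : F) : ℕ :=
  if h : OnV M.toCyc f y then h.choose else 0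

/-- The boundary cycle of `f` starting at `y`: `w 0 = y` (if `y ∈ f`). -/
noncomputable def ww (M : PMap V F) (y : V) (f : F) (k : ℕ) : V := M.bd f (st M y f + k)

/-- index `k` of `B` is shared: `w k` (`1 ≤ k < len B`) is on a face containing `x` -/
def sh (M : PMap V F) (x y : V) (B : F) (k : ℕ) : Prop :=
  1 ≤ k ∧ k < M.len B ∧ ∃ A, OnV M.toCyc A x ∧ OnV M.toCyc A (ww M y B k)

/-- the edge `w k, w (k+1)` of `B` lies between the first and the last shared index -/
def inb (M : PMap V F) (x y : V) (B : F) (k : ℕ) : Prop :=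
  (∃ a, a ≤ k ∧ sh M x y B a) ∧ ∃ b, k < b ∧ sh M x y B b

/-- `k` begins a gap of `B`: shared, a later index is shared, and the edge `w k, w (k+1)` is not on a
face containing `x` -/
def gp (M : PMap V F) (x y : V) (B : F) (k : ℕ) : Prop :=
  sh M x y B k ∧ (∃ b, k < b ∧ sh M x y B b) ∧
    ¬ ∃ A, OnV M.toCyc A x ∧ OnE M.toCyc A s(ww M y B k, ww M y B (k + 1))

/-- The edges on a face containing `x` but not containing `x` (the edges of `C_X`). -/
def cx (M : PMap V F) (x : V) (e : Sym2 V) : Prop :=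
  x ∉ e ∧ ∃ A, OnV M.toCyc A x ∧ OnE M.toCyc A e

/-- The edge set `U`. -/
def inU (M : PMap V F) (x y : V) (J : Finset F) (e : Sym2 V) : Prop :=
  cx M x e ∨ ∃ B ∈ J, ∃ k, inb M x y B k ∧ e = s(ww M y B k, ww M y B (k + 1))

/-- The vertex set of `U`. -/
def inW (M : PMap V F) (x y : V) (J : Finset F) (v : V) : Prop :=
  (v ≠ x ∧ ∃ A, OnV M.toCyc A x ∧ OnV M.toCyc A v) ∨
    ∃ B ∈ J, ∃ k, inb M x y B k ∧ v = ww M y B k

/-- two faces with a common edge outside `U` -/
def lk (M : PMap V F) (U : Sym2 V → Prop) (f g : F) : Prop :=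
  ∃ e, ¬ U e ∧ OnE M.toCyc f e ∧ OnE M.toCyc g e

/-- The gaps. -/
noncomputable def gaps (M : PMap V F) (x y : V) (J : Finset F) : Finset ((_ : F) × ℕ) :=
  J.sigma (fun B => (range (M.len B)).filter (fun k => gp M x y B k))

/-- `J` is a set of faces containing `y`, each meets a face containing `x`, and every neighbour of
`x` is on a face of `J`. -/
structure TopH (M : PMap V F) (x y : V) (J : Finset F) : Prop where
  ne : ∀ f, ¬ (OnV M.toCyc f x ∧ OnV M.toCyc f y)
  jy : ∀ B ∈ J, OnV M.toCyc B y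
  jn : ∀ B ∈ J, ∃ k, sh M x y B k
  js : ∀ s, Adj M.toCyc x s → ∃ B ∈ J, OnV M.toCyc B s

end

/-- Hyp.: none. `w 0 = y`. -/
def WW0_stmt : Prop := ∀ (V F : Type) (M : PMap V F) (y : V) (f : F),
  OnV M.toCyc f y → ww M y f 0 = y ∧ ww M y f (M.len f) = y

/-- Hyp.: EDG. LINEAR ALGEBRA over `ZMod 2` (or dual forests). `K = ZMod 2`,
`E' = {e // IsE e ∧ ¬ U e}`, `V' = {v // ¬ W v}`. `P : (F → K) → (E' → K)`, `P S e = ∑_{f ∋ e} S f`;
`Q : (E' → K) → (V' → K)`, `Q c v = ∑_{e ∋ v} c e`. `Q (P S) = 0`: for `v ∉ W` all edges at `v` are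
outside `U`, and every face has `0` or `2` edges at `v`. `Q` is onto: by connectedness every `v ∉ W` is
joined to the nonempty `W` by a path in the graph (the vertices reachable from `v`: all faces at them
are closed under `conn`, so all vertices are reachable); the edges of a shortest path from `v` to `W`
give `c` with `Q c` = indicator of `v`. `ker P` embeds in the functions on `Quot (lk M U)`: `P S = 0`
means `S f = S g` for the two faces of each edge outside `U`. So
`|V'| = rank Q ≤ |E'| - rank P ≤ |E'| - (|F| - #Quot)`, where `|V'| = |V| - |W|`, `|E'| = |E| - |U|`. -/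
def LIN_stmt : Prop := ∀ (V F : Type) [Fintype V] [Fintype F] (M : PMap V F) (U : Sym2 V → Prop)
  (W : V → Prop), (∀ e, U e → IsE M.toCyc e) → (∃ v, W v) → (∀ e, U e → ∀ v ∈ e, W v) →
    chi M.toCyc + ((univ.filter (fun e => U e)).card : ℤ) - ((univ.filter (fun v => W v)).card : ℤ) ≤
      (Nat.card (Quot (lk M U)) : ℤ)

/-- Hyp.: IDX, EDG, DEG, WW0. `C_X` part: #edges of `C_X` = #vertices `≠ x` on the faces at `x` (DEG (5)
for `z = x`: every such vertex has exactly two such edges, every such edge has two such ends; double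
counting). For `B ∈ J`, with `lo`, `hi` the first and last shared index: the indices `k ∈ [lo, hi)`
with `w k` not shared give the further vertices, `hi - lo + 1 - V_B` of them (`shV` = the `w k`, `k`
shared, all in `[lo, hi]`); the `k ∈ [lo, hi)` with `s(w k, w (k+1))` not in `C_X` give the further
edges, `hi - lo - E_B` (`shE` = those in `C_X`; both ends are shared). For different `B, B' ∈ J` these
are different: a vertex `w k` unshared has `lo < k < hi`, so `1 < k < len B - 1`; if it were on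
`B' ∋ y` then `poly` gives the edge `s(y, w k)` of `B` (IDX: no). Edges: they contain an unshared
vertex or have two common vertices and `y`. So `|U| - |W| = ∑ (V_B - E_B - 1)`. -/
def CNT_stmt : Prop := ∀ (V F : Type) [Fintype V] [Fintype F] (M : PMap V F) (x y : V)
  (J : Finset F), TopH M x y J →
    ((univ.filter (fun e => inU M x y J e)).card : ℤ) -
      ((univ.filter (fun v => inW M x y J v)).card : ℤ) =
      ∑ B ∈ J, (((shV M x B).card : ℤ) - (shE M x B).card - 1)

/-- Hyp.: IDX, EDG, WW0. For `B ∈ J`: the shared indices are `V_B` many; all but the last have a later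
shared index; those `k` among them with `s(w k, w (k+1))` on a face containing `x` are `E_B` many
(such an edge has both ends shared, `k` and `k + 1`; an edge of `shE` does not contain `y`, as no face
contains `x` and `y`). -/
def GCN_stmt : Prop := ∀ (V F : Type) [Fintype V] [Fintype F] (M : PMap V F) (x y : V)
  (J : Finset F), TopH M x y J →
    ((gaps M x y J).card : ℤ) = ∑ B ∈ J, (((shV M x B).card : ℤ) - (shE M x B).card - 1)

/-- Hyp.: IDX, EDG, WW0. All faces at `x` are in one class, all faces at `y` are in one class: the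
edges at `x` (at `y`) are not in `U`; `link` at `x` for the set of the faces of the class. -/
def XCL_stmt : Prop := ∀ (V F : Type) (M : PMap V F) (x y : V) (J : Finset F), TopH M x y J →
  (∀ f g, OnV M.toCyc f x → OnV M.toCyc g x →
    Quot.mk (lk M (inU M x y J)) f = Quot.mk (lk M (inU M x y J)) g) ∧
  (∀ f g, OnV M.toCyc f y → OnV M.toCyc g y →
    Quot.mk (lk M (inU M x y J)) f = Quot.mk (lk M (inU M x y J)) g)

/-- Hyp.: IDX, EDG, PAR, WW0. Walk along `B`. `q` a class not containing a face at `y`; `k` an index with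
`inb` and a face `g` in the class `q` on the edge `s(w k, w (k+1))`. Then the gap below: `k1 ≤ k`
shared, no shared index in `(k1, k]`, `gp k1`, and a face of the class `q` on `s(w k1, w (k1+1))`.
Proof: downward induction. If `w k` is not shared then `lo < k < hi` (so `1 < k < len B - 1`), and the
only edges of `U` at `w k` are `s(w (k-1), w k)` and `s(w k, w (k+1))` (no edge of `C_X` since unshared;
another `B' ∈ J` does not contain `w k`, see CNT). With `S` = faces of class `q`: separating edges at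
`w k` are in `U`; `s(w k, w (k+1))` is separating (`B ∉ S`), so by PAR the other one is separating too:
one of its faces is in `S`. If `w k` is shared take `k1 = k`: the edge is not on a face `A ∋ x`,
since its faces are `B ∉ S` and `g ∈ S`, and `A ∉ S` by hypothesis. -/
def WLK_stmt : Prop := ∀ (V F : Type) [Fintype V] [Fintype F] (M : PMap V F) (x y : V)
  (J : Finset F), TopH M x y J → ∀ q : Quot (lk M (inU M x y J)),
  (∀ A, OnV M.toCyc A x → Quot.mk _ A ≠ q) → (∀ B, OnV M.toCyc B y → Quot.mk _ B ≠ q) →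
  ∀ B ∈ J, ∀ k, inb M x y B k →
    (∃ g, OnE M.toCyc g s(ww M y B k, ww M y B (k + 1)) ∧ Quot.mk _ g = q) →
  ∃ k1, k1 ≤ k ∧ (∀ i, k1 < i → i ≤ k → ¬ sh M x y B i) ∧ gp M x y B k1 ∧
    ∃ g, OnE M.toCyc g s(ww M y B k1, ww M y B (k1 + 1)) ∧ Quot.mk _ g = q

/-- Hyp.: IDX, EDG, DEG, PAR, WW0. Walk along a face `A ∋ x`, `u i = w i` for the start `x`. `q` a class as
before, `1 ≤ i`, `i + 1 < len A`, a face of class `q` on `s(u i, u (i+1))`. Then there are
`1 ≤ i1 ≤ i` and `i + 1 ≤ i2 < len A` such that `u i1` and `u i2` are on faces of `J`, and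
`s(u i1, u (i1+1))` and `s(u (i2-1), u i2)` have a face of class `q`.
Proof: as WLK, with `i1` the largest index `≤ i` with `u i1` on a face of `J` (exists: `u 1` is a
neighbour of `x`, `js`), `i2` the smallest one `≥ i + 1` (`u (len A - 1)`). At `u i` not on a face of `J`:
`1 < i < len A - 1`, `u i` is not a neighbour of `x` (`js`), so `A` is the only face at `x` containing
it, and the edges of `U` at `u i` are exactly `s(u (i-1), u i)`, `s(u i, u (i+1))`. -/
def WLX_stmt : Prop := ∀ (V F : Type) [Fintype V] [Fintype F] (M : PMap V F) (x y : V)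
  (J : Finset F), TopH M x y J → ∀ q : Quot (lk M (inU M x y J)),
  (∀ A, OnV M.toCyc A x → Quot.mk _ A ≠ q) →
  ∀ A, OnV M.toCyc A x → ∀ i, 1 ≤ i → i + 1 < M.len A →
    (∃ g, OnE M.toCyc g s(ww M x A i, ww M x A (i + 1)) ∧ Quot.mk _ g = q) →
  ∃ i1 i2, 1 ≤ i1 ∧ i1 ≤ i ∧ i + 1 ≤ i2 ∧ i2 < M.len A ∧
    (∃ B ∈ J, OnV M.toCyc B (ww M x A i1)) ∧ (∃ B ∈ J, OnV M.toCyc B (ww M x A i2)) ∧
    (∃ g, OnE M.toCyc g s(ww M x A i1, ww M x A (i1 + 1)) ∧ Quot.mk _ g = q) ∧
    (∃ g, OnE M.toCyc g s(ww M x A (i2 - 1), ww M x A i2) ∧ Quot.mk _ g = q)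

/-- Hyp.: IDX, EDG, DEG, PAR, WW0. At a shared vertex, from `C_X` to a gap. `q` a class containing no face
at `x` and no face at `y`; `v` on a face of `J`; `e ∋ v` an edge of `C_X` with a face of class `q`. Then some
edge `h ∋ v`, `h = s(w k, w (k+1))` of some `B ∈ J` with `inb k`, not in `C_X`, has a face of class `q`.
Proof: `S` = faces of class `q`. Suppose not. Separating edges of `S` at `v` are in `U`, and not of the
second kind (unless in `C_X`), so in `C_X`: at `v` there are exactly two of them, `e, e'` (DEG (5), `z = x`);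
`e` is separating, so by PAR `e'` is too. Let `S2 = S ∪ {faces at x}`; no edge at `v` separates `S2`:
`e`, `e'` have one face at `x` and the other in `S`; an edge containing `x` has both faces at `x`; another edge
`h` at `v` is not on a face at `x`, and is not separating for `S`. By `link` all faces at `v` are in `S2`,
but the `B ∈ J` containing `v` is not in `S` and does not contain `x`. -/
def VXS_stmt : Prop := ∀ (V F : Type) [Fintype V] [Fintype F] (M : PMap V F) (x y : V)
  (J : Finset F), TopH M x y J → ∀ q : Quot (lk M (inU M x y J)),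
  (∀ A, OnV M.toCyc A x → Quot.mk _ A ≠ q) → (∀ B, OnV M.toCyc B y → Quot.mk _ B ≠ q) →
  ∀ v, (∃ B ∈ J, OnV M.toCyc B v) → ∀ e, v ∈ e → cx M x e →
    (∃ g, OnE M.toCyc g e ∧ Quot.mk _ g = q) →
  ∃ B ∈ J, ∃ k, inb M x y B k ∧ v ∈ s(ww M y B k, ww M y B (k + 1)) ∧
    ¬ cx M x s(ww M y B k, ww M y B (k + 1)) ∧
    ∃ g, OnE M.toCyc g s(ww M y B k, ww M y B (k + 1)) ∧ Quot.mk _ g = q

/-- Hyp.: IDX, EDG, DEG, PAR, WW0. From a gap to `C_X`. `q` as before; `v` on a face containing `x`, `v ∈ h`,
`h = s(w k, w (k+1))` of `B ∈ J`, `inb k`, with a face of class `q`. Then some edge of `C_X` at `v` has a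
face of class `q`. Proof: `S` = faces of class `q`; `h` is separating (`B ∉ S`). Suppose no edge of `C_X` at
`v` has a face in `S`. Separating edges at `v` are in `U`, so on faces of `J` and not containing `y`; there
are exactly two edges at `v` on faces at `y` not containing `y` (DEG (5), `z = y`): `h` and `h'`; by PAR `h'` is
separating. `S2 = S ∪ {faces at y}`: no edge at `v` separates it: `h, h'` have one face at `y` and the other
in `S`; edges containing `y` have both faces at `y`; another edge is not on a face at `y` and does not separate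
`S`. By `link` all faces at `v` are in `S2`, but a face at `x` containing `v` is not. -/
def VYS_stmt : Prop := ∀ (V F : Type) [Fintype V] [Fintype F] (M : PMap V F) (x y : V)
  (J : Finset F), TopH M x y J → ∀ q : Quot (lk M (inU M x y J)),
  (∀ A, OnV M.toCyc A x → Quot.mk _ A ≠ q) → (∀ B, OnV M.toCyc B y → Quot.mk _ B ≠ q) →
  ∀ B ∈ J, ∀ k, inb M x y B k → ∀ v, v ∈ s(ww M y B k, ww M y B (k + 1)) →
    (∃ A, OnV M.toCyc A x ∧ OnV M.toCyc A v) →
    (∃ g, OnE M.toCyc g s(ww M y B k, ww M y B (k + 1)) ∧ Quot.mk _ g = q) →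
  ∃ e, v ∈ e ∧ cx M x e ∧ ∃ g, OnE M.toCyc g e ∧ Quot.mk _ g = q

/-- Hyp.: IDX, EDG, WW0, WLK, WLX, VXS, VYS. Every class containing no face at `x` and no face at `y` is
across two different gaps. Proof. `S` = faces of class `q`, not everything (`x` is on a face), not empty; by
`conn` some edge has one face in `S` and one not in `S`; it is in `U`. If it is `s(w k, w (k+1))` of `B ∈ J`
with `inb k`: by WLK there is a gap `k1` with a face of class `q`; `v = w k1` is on a face at `x`, VYS gives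
an edge of `C_X` with a face in `S`. So there is always an edge `e` of `C_X` with a face in `S`, `e` on
`A ∋ x`: `e = s(u i, u (i+1))`, `1 ≤ i`, `i + 1 < len A` (IDX, as `x ∉ e`). WLX gives `v1 = u i1`,
`v2 = u i2`, `v1 ≠ v2`; VXS at `v1` gives `B`, `k` and WLK a gap `(B, k1)` with a face in `S`; its ends are
`w k1` and `w k2`, `k2` the next shared index; `v1` is shared and an end of `s(w k, w (k+1))`, so
`v1 = w k1` (`k = k1`) or `v1 = w k2`, `k2 = k + 1`. The same for `v2`. If both gaps are equal, then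
`{v1, v2} = {w k1, w k2}`, `v1, v2 ∈ A ∩ B`, so `s(v1, v2)` is an edge of `A` and of `B` (`poly`), so
`k2 = k1 + 1` (IDX) and the gap edge is on `A ∋ x`, against `gp`. -/
def CLS_stmt : Prop := ∀ (V F : Type) [Fintype V] [Fintype F] (M : PMap V F) (x y : V)
  (J : Finset F), TopH M x y J → ∀ q : Quot (lk M (inU M x y J)),
  (∀ A, OnV M.toCyc A x → Quot.mk _ A ≠ q) → (∀ B, OnV M.toCyc B y → Quot.mk _ B ≠ q) →
  ∃ c1 ∈ gaps M x y J, ∃ c2 ∈ gaps M x y J, c1 ≠ c2 ∧
    (∃ g, OnE M.toCyc g s(ww M y c1.1 c1.2, ww M y c1.1 (c1.2 + 1)) ∧ Quot.mk _ g = q) ∧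
    (∃ g, OnE M.toCyc g s(ww M y c2.1 c2.2, ww M y c2.1 (c2.2 + 1)) ∧ Quot.mk _ g = q)

/-- Hyp.: XCL, CLS. Counting: the edge of a gap `c = (B, k)` has two faces, `B` (containing `y`) and one
more, so at most one class without faces at `x`, `y` is across `c`. Each such class is across at least two
gaps, and there are at most two other classes. -/
def CCT_stmt : Prop := ∀ (V F : Type) [Fintype V] [Fintype F] (M : PMap V F) (x y : V)
  (J : Finset F), TopH M x y J → 2 * Nat.card (Quot (lk M (inU M x y J))) ≤ 4 + (gaps M x y J).card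

/-- Hyp.: LIN, CNT, GCN, CCT, EDG. `W` is nonempty (`jn`) and contains the ends of the edges of `U`
(`w (k+1)` with `inb k` is shared or `inb (k+1)`). So with `G` = number of gaps:
`χ + G ≤ #classes ≤ 2 + G/2`. -/
def TOP_stmt : Prop := ∀ (V F : Type) [Fintype V] [Fintype F] (M : PMap V F) (x y : V)
  (J : Finset F), TopH M x y J →
    2 * chi M.toCyc + ∑ B ∈ J, (((shV M x B).card : ℤ) - (shE M x B).card - 1) ≤ 4

/-- Hyp.: BAD, GE8, TOP (WW0, EDG for `TopH`). -/
def FIN_stmt : Prop := ∀ (V F : Type) [Fintype V] [Fintype F] (M : PMap V F), -1 ≤ chi M.toCyc →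
  ∀ x y : V, (∀ s, Adj M.toCyc x s → ∃ f, OnV M.toCyc f s ∧ OnV M.toCyc f y) →
    NRPath M.toCyc x y

end Pool.Agent.helper84.NR
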