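import Pool.Agent.helper84.NR.All

/-!
# Project NRW (MP_133bfc_co): spec of Theorem W

`FINW_stmt`: on a closed surface with `χ ≥ -1` any two vertices `x`, `y` of a polyhedral map are joined
by a path which revisits no face containing `x` or `y` (false for `χ = -2`).

Row `XX`: file `Pool/Agent/<seat>/NRW/XX.lean`, `import Pool.Agent.helper84.NR.SpecW`,
`namespace Pool.Agent.helper84.NR`, `open scoped Classical`, `open Finset`,
`theorem XX (h1 : YY_stmt) .. : XX_stmt`. Everything proved in project NR is available as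
`h_IDX`, `h_EDG`, `h_DEG`, `h_PAR`, `h_WW0`, `h_PCF`, `h_PCN`, `h_NVQ`, `h_LIN` (theorems).
Rows marked COPY have the same proof as the NR row named there (only `TopH` is replaced by `TopW`).
-/

set_option autoImplicit false

namespace Pool.Agent.helper84.NR

open scoped Classical
open Finset

/-- There is a path from `x` to `y` whose intersection with every face containing `x` or `y` is
connected (the path revisits no face containing `x` or `y`). -/
def NRXY {V F : Type} (M : Cyc V F) (x y : V) : Prop :=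
  ∃ (n : ℕ) (q : ℕ → V), q 0 = x ∧ q n = y ∧
    (∀ i j, i ≤ n → j ≤ n → q i = q j → i = j) ∧
    (∀ i, i < n → Adj M (q i) (q (i + 1))) ∧
    ∀ f, (OnV M f x ∨ OnV M f y) → ∀ i j, i ≤ j → j ≤ n → OnV M f (q i) → OnV M f (q j) →
      ∀ k, i ≤ k → k < j → OnE M f s(q k, q (k + 1))

/-! ## Routes -/

/-- `B` meets `A ∋ x` at the first or at the last shared index of `A` (`sh M y x A i`: `1 ≤ i < len A`
and `ww M x A i` is on a face containing `y`). -/
def ex {V F : Type} (M : PMap V F) (x y : V) (A B : F) : Prop :=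
  ∃ i, sh M y x A i ∧ OnV M.toCyc B (ww M x A i) ∧
    ((∀ j, sh M y x A j → i ≤ j) ∨ (∀ j, sh M y x A j → j ≤ i))

/-- An access path from `x` to `v` on `A ∋ x`. -/
def Acc {V F : Type} (M : PMap V F) (x y : V) (A : F) (v : V) (m : ℕ) (a : ℕ → V) : Prop :=
  1 ≤ m ∧ a 0 = x ∧ a m = v ∧ (∀ i j, i ≤ m → j ≤ m → a i = a j → i = j) ∧
    (∀ j, j < m → OnE M.toCyc A s(a j, a (j + 1))) ∧
    (∀ j, j < m → ¬ ∃ B, OnV M.toCyc B y ∧ OnV M.toCyc B (a j)) ∧
    ∀ f, OnV M.toCyc f x → f ≠ A → ∀ j, 1 ≤ j → j ≤ m → OnV M.toCyc f (a j) → j = 1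

/-- Uses h_IDX, h_EDG, h_WW0. If `u i` (`u = ww M x A`, `n = len A`) is adjacent to `x`: `m = 1`,
`a = x, u i`. Otherwise in the first case `m = i`, `a j = u j`; in the second `m = n - i`,
`a j = u (n - j)`. A face `f ≠ A` containing `x` and `u j` gives the edge `s(x, u j)` of `A` (`poly`), so
`j = 1` or `j = n - 1` (IDX); in the first case `j ≤ i`, and `j = n - 1` would give `i = n - 1`,
`u i` adjacent to `x`; in the second case the same with the sides exchanged. `a 0 = x` is on no face
at `y`. -/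
def RTA_stmt : Prop := ∀ (V F : Type) (M : PMap V F) (x y : V) (A : F) (i : ℕ),
  (∀ f, ¬ (OnV M.toCyc f x ∧ OnV M.toCyc f y)) → OnV M.toCyc A x → 1 ≤ i → i < M.len A →
  ((∀ j, 1 ≤ j → j < i → ¬ ∃ B, OnV M.toCyc B y ∧ OnV M.toCyc B (ww M x A j)) ∨
   (∀ j, i < j → j < M.len A → ¬ ∃ B, OnV M.toCyc B y ∧ OnV M.toCyc B (ww M x A j))) →
  ∃ m a, Acc M x y A (ww M x A i) m a

/-- Uses h_EDG. Concatenation in one point: `q j = a j` (`j ≤ m`), `q (m + j) = b (m' - j)` (`j ≤ m'`).
The `a j`, `j < m`, are on no face at `y`, the `b j`, `j < m'`, on no face at `x`; so the path has no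
repeated vertex. A face `f ∋ x`: if `f = A` it contains exactly `q 0, ..., q m`, edges on `A`; if `f ≠ A`
it contains of the path at most `q 0`, `q 1`, and the edge between them (EDG). Symmetric for `y`. -/
def CA1_stmt : Prop := ∀ (V F : Type) (M : PMap V F) (x y : V) (A B : F) (v : V) (m m' : ℕ)
  (a b : ℕ → V), OnV M.toCyc A x → OnV M.toCyc B y → Acc M x y A v m a → Acc M y x B v m' b →
  NRXY M.toCyc x y

/-- Uses h_EDG. Concatenation through an edge `s(v, w)` on `A` and `B`, `w` not adjacent to `x`, `v` not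
adjacent to `y`: `q j = a j` (`j ≤ m`), `q (m + 1 + j) = b (m' - j)` (`j ≤ m'`). `f ∋ x`: `f = A` contains
exactly `q 0, ..., q (m+1)`; `f ≠ A` does not contain `w` (`poly`: `f ∩ A ∋ x, w` would give an edge
`s(x, w)`), so at most `q 0, q 1`. Symmetric for `y`. -/
def CA2_stmt : Prop := ∀ (V F : Type) (M : PMap V F) (x y : V) (A B : F) (v w : V) (m m' : ℕ)
  (a b : ℕ → V), OnV M.toCyc A x → OnV M.toCyc B y → OnE M.toCyc A s(v, w) →
  OnE M.toCyc B s(v, w) → ¬ Adj M.toCyc x w → ¬ Adj M.toCyc v y →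
  Acc M x y A v m a → Acc M y x B w m' b → NRXY M.toCyc x y

/-- Hyp.: RTA, CA1, CA2 (h_IDX, h_EDG, h_WW0). `ex M x y A B` gives `v = ww M x A i ∈ A ∩ B` and (RTA) an
access path `a` to `v` on `A`; `ex M y x B A` gives `w = ww M y B k ∈ A ∩ B` and an access path `b` to `w` on
`B`. If `v = w`: CA1. If `v ≠ w`, `s(v, w)` is an edge of both (`poly`; `A ≠ B`). If `x` is adjacent to `w`,
`x, w` (`m = 1`) is an access path on `A` to `w` (a face `f ∋ x` contains `w` only at `j = 1`): CA1.
If `v` is adjacent to `y` likewise. Otherwise CA2. -/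
def RT_stmt : Prop := ∀ (V F : Type) (M : PMap V F) (x y : V) (A B : F),
  (∀ f, ¬ (OnV M.toCyc f x ∧ OnV M.toCyc f y)) → OnV M.toCyc A x → OnV M.toCyc B y →
  ex M x y A B → ex M y x B A → NRXY M.toCyc x y

/-- Uses h_EDG. Connectedness of the graph: any two vertices are joined by a walk. (The set of the faces
with a vertex reachable from `u` is closed under `conn`: a face is a cycle.) -/
def WAL_stmt : Prop := ∀ (V F : Type) (M : PMap V F) (u v : V),
  ∃ (n : ℕ) (r : ℕ → V), r 0 = u ∧ r n = v ∧ ∀ i, i < n → Adj M.toCyc (r i) (r (i + 1))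

/-- Hyp.: WAL, RTA (h_EDG, h_WW0). No vertex is on a face at `x` and on a face at `y`. Take a walk
`r 0, ..., r L` with `r 0 ≠ x` on a face `A` at `x`, `r L ≠ y` on a face `B` at `y`, with the smallest `L`
(exists by WAL; `L ≥ 1`). For `0 < j < L`, `r j` is not on a face at `x` or `y` (for `r j = x` the next
vertex is on a face at `x`), and the `r j` are different. RTA (all conditions hold) gives access paths
`a` to `r 0` on `A` and `b` to `r L` on `B`. The path: `a`, then `r 1, ..., r (L-1)`, then `b` backwards.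
A face at `x` contains only vertices of `a`. -/
def RT0_stmt : Prop := ∀ (V F : Type) (M : PMap V F) (x y : V),
  (∀ f, ¬ (OnV M.toCyc f x ∧ OnV M.toCyc f y)) →
  (∀ v A B, OnV M.toCyc A x → OnV M.toCyc A v → OnV M.toCyc B y → ¬ OnV M.toCyc B v) →
  NRXY M.toCyc x y

/-! ## Counting -/

/-- Bipartite counting. `P` nonempty set of pairs, `X, Y ⊆ P` disjoint; for every `A` at least
`min 2 (number of pairs (A, *) in P)` of them are in `X`, for every `B` at least `min 2 (..)` of the
pairs `(*, B)` are in `Y`. Proof: `A1` = the `A` with exactly one pair (it is in `X`), `A2` = the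
others in the image; `B1`, `B2` the same (unique pair in `Y`). No pair in `A1 × B1`. A pair of `X` with
`A ∈ A2` has `B ∈ B2` (otherwise it would be in `Y`), a pair of `Y` with `B ∈ B2` has `A ∈ A2`. So `P`
restricted to `A2 × B2` has `N' ≥ 2a + 2b` elements (`a = |A2|`, `b = |B2|`), `N' ≤ ab`; `a, b ≥ 1`. So
`(a - 2)(b - 2) ≥ 4`, `a + b ≥ 8`, `N' ≥ a + b + 8`; and `|P| = N' + |A1| + |B1|`. -/
def BIP_stmt : Prop := ∀ (F : Type) (P X Y : Finset (F × F)), X ⊆ P → Y ⊆ P → Disjoint X Y →
  P.Nonempty →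
  (∀ A, min 2 (P.filter (fun p => p.1 = A)).card ≤ (X.filter (fun p => p.1 = A)).card) →
  (∀ B, min 2 (P.filter (fun p => p.2 = B)).card ≤ (Y.filter (fun p => p.2 = B)).card) →
  (P.image Prod.fst).card + (P.image Prod.snd).card + 8 ≤ P.card

section
variable {V F : Type} [Fintype V] [Fintype F]

/-- meeting pairs: a face containing `x` and a face containing `y` with a common vertex -/
noncomputable def MPs (M : PMap V F) (x y : V) : Finset (F × F) :=
  univ.filter (fun p => OnV M.toCyc p.1 x ∧ OnV M.toCyc p.2 y ∧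
    ∃ v, OnV M.toCyc p.1 v ∧ OnV M.toCyc p.2 v)

/-- faces containing `x` which meet a face containing `y` -/
noncomputable def XM (M : PMap V F) (x y : V) : Finset F :=
  univ.filter (fun A => OnV M.toCyc A x ∧ ∃ B, OnV M.toCyc B y ∧
    ∃ v, OnV M.toCyc A v ∧ OnV M.toCyc B v)

/-- neighbours of `x` on a face containing `y` -/
noncomputable def sX (M : PMap V F) (x y : V) : Finset V :=
  univ.filter (fun s => Adj M.toCyc x s ∧ ∃ B, OnV M.toCyc B y ∧ OnV M.toCyc B s)

end

/-- Uses h_IDX, h_EDG, h_WW0. For a face `A ∋ x`: `min 2 (number of B ∋ y meeting A) ≤` number of those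
with `ex M x y A B`. Proof: if no `B` meets `A` clear. A common vertex of `A` and `B` is some
`u i = ww M x A i` with `sh M y x A i`. Let `f`, `l` be the first and the last index with `sh`. If `f = l`
every `B` meeting `A` contains `u f`, so `ex`. If `f < l`: `B1 ∋ u f`, `B2 ∋ u l`; if they can be chosen
different, there are two. If not, there is one `B` which is the only face at `y` containing `u f` and the
only one containing `u l`; `poly`: `s(u f, u l)` is an edge of `A`, so `l = f + 1` (IDX), the shared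
indices are `f, l` only, and `B` is the only face at `y` meeting `A`. -/
def EXX_stmt : Prop := ∀ (V F : Type) [Fintype V] [Fintype F] (M : PMap V F) (x y : V) (A : F),
  (∀ f, ¬ (OnV M.toCyc f x ∧ OnV M.toCyc f y)) → OnV M.toCyc A x →
  min 2 (univ.filter (fun B => OnV M.toCyc B y ∧ ∃ v, OnV M.toCyc A v ∧ OnV M.toCyc B v)).card ≤
    (univ.filter (fun B => OnV M.toCyc B y ∧ ex M x y A B)).card

/-- Hyp.: BIP, EXX, RT, RT0 (h_PCF). `P = MPs`, `X` the pairs with `ex M x y A B`, `Y` the pairs with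
`ex M y x B A`; disjoint by RT, `P` nonempty by RT0. No common face: a common face gives `NRPath`
(h_PCF), so `NRXY`. The images of `P` are `XM M x y` and `XM M y x`. -/
def GEW_stmt : Prop := ∀ (V F : Type) [Fintype V] [Fintype F] (M : PMap V F) (x y : V),
  ¬ NRXY M.toCyc x y → (XM M x y).card + (XM M y x).card + 8 ≤ (MPs M x y).card

/-- Uses h_NVQ, h_EDG. `∑_B (V_B - E_B - 1) = ∑_B (N_B - Q_B - 1)` (h_NVQ) over `B ∈ XM M y x`;
`∑ N_B` = number of meeting pairs; `∑ Q_B = |sX|` as every neighbour `s` of `x` on a face at `y` is on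
exactly one such face (two of them give the edge `s(s, y)` by `poly`, a common neighbour) and this face
is in `XM M y x` (the edge `s(x, s)` is on a face at `x`). -/
def FRM_stmt : Prop := ∀ (V F : Type) [Fintype V] [Fintype F] (M : PMap V F) (x y : V),
  (∀ f, ¬ (OnV M.toCyc f x ∧ OnV M.toCyc f y)) →
  (∀ s, Adj M.toCyc x s → ¬ Adj M.toCyc s y) →
  ∑ B ∈ XM M y x, (((shV M x B).card : ℤ) - (shE M x B).card - 1) =
    ((MPs M x y).card : ℤ) - (sX M x y).card - (XM M y x).card

/-! ## Topology -/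

/-- `J` = the faces containing `y` which meet a face containing `x`; there is one. -/
structure TopW {V F : Type} (M : PMap V F) (x y : V) (J : Finset F) : Prop where
  ne : ∀ f, ¬ (OnV M.toCyc f x ∧ OnV M.toCyc f y)
  jy : ∀ B ∈ J, OnV M.toCyc B y
  jn : ∀ B ∈ J, ∃ k, sh M x y B k
  ja : ∀ B, OnV M.toCyc B y → (∃ k, sh M x y B k) → B ∈ J
  j0 : J.Nonempty

/-- COPY of CNT (Pool/Agent/helper63/NR/CNT.lean). -/
def CNTW_stmt : Prop := ∀ (V F : Type) [Fintype V] [Fintype F] (M : PMap V F) (x y : V)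
  (J : Finset F), TopW M x y J →
    ((univ.filter (fun e => inU M x y J e)).card : ℤ) -
      ((univ.filter (fun v => inW M x y J v)).card : ℤ) =
      ∑ B ∈ J, (((shV M x B).card : ℤ) - (shE M x B).card - 1)

/-- COPY of GCN (Pool/Agent/helper99/NR/GCN.lean). -/
def GCNW_stmt : Prop := ∀ (V F : Type) [Fintype V] [Fintype F] (M : PMap V F) (x y : V)
  (J : Finset F), TopW M x y J →
    ((gaps M x y J).card : ℤ) = ∑ B ∈ J, (((shV M x B).card : ℤ) - (shE M x B).card - 1)

/-- COPY of XCL (Pool/Agent/helper16/NR/XCL.lean). -/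
def XCLW_stmt : Prop := ∀ (V F : Type) (M : PMap V F) (x y : V) (J : Finset F), TopW M x y J →
  (∀ f g, OnV M.toCyc f x → OnV M.toCyc g x →
    Quot.mk (lk M (inU M x y J)) f = Quot.mk (lk M (inU M x y J)) g) ∧
  (∀ f g, OnV M.toCyc f y → OnV M.toCyc g y →
    Quot.mk (lk M (inU M x y J)) f = Quot.mk (lk M (inU M x y J)) g)

/-- A class containing no face at `x` and no face at `y`. -/
def Pure {V F : Type} (M : PMap V F) (x y : V) (J : Finset F)
    (q : Quot (lk M (inU M x y J))) : Prop :=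
  (∀ A, OnV M.toCyc A x → Quot.mk _ A ≠ q) ∧ (∀ B, OnV M.toCyc B y → Quot.mk _ B ≠ q)

/-- The edge `e` has a face of the class `q`. -/
def Has {V F : Type} (M : PMap V F) (x y : V) (J : Finset F)
    (q : Quot (lk M (inU M x y J))) (e : Sym2 V) : Prop :=
  ∃ g, OnE M.toCyc g e ∧ Quot.mk _ g = q

/-- COPY of WLK (Pool/Agent/helper31/NR/WLK.lean). -/
def WLKW_stmt : Prop := ∀ (V F : Type) [Fintype V] [Fintype F] (M : PMap V F) (x y : V)
  (J : Finset F), TopW M x y J → ∀ q, Pure M x y J q →
  ∀ B ∈ J, ∀ k, inb M x y B k → Has M x y J q s(ww M y B k, ww M y B (k + 1)) →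
  ∃ k1, k1 ≤ k ∧ (∀ i, k1 < i → i ≤ k → ¬ sh M x y B i) ∧ gp M x y B k1 ∧
    Has M x y J q s(ww M y B k1, ww M y B (k1 + 1))

/-- COPY of VXS (Pool/Agent/helper44/NR/VXS.lean). -/
def VXSW_stmt : Prop := ∀ (V F : Type) [Fintype V] [Fintype F] (M : PMap V F) (x y : V)
  (J : Finset F), TopW M x y J → ∀ q, Pure M x y J q →
  ∀ v, (∃ B ∈ J, OnV M.toCyc B v) → ∀ e, v ∈ e → cx M x e → Has M x y J q e →
  ∃ B ∈ J, ∃ k, inb M x y B k ∧ v ∈ s(ww M y B k, ww M y B (k + 1)) ∧
    ¬ cx M x s(ww M y B k, ww M y B (k + 1)) ∧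
    Has M x y J q s(ww M y B k, ww M y B (k + 1))

/-- COPY of VYS (Pool/Agent/helper21/NR/VYS.lean). -/
def VYSW_stmt : Prop := ∀ (V F : Type) [Fintype V] [Fintype F] (M : PMap V F) (x y : V)
  (J : Finset F), TopW M x y J → ∀ q, Pure M x y J q →
  ∀ B ∈ J, ∀ k, inb M x y B k → ∀ v, v ∈ s(ww M y B k, ww M y B (k + 1)) →
    (∃ A, OnV M.toCyc A x ∧ OnV M.toCyc A v) →
    Has M x y J q s(ww M y B k, ww M y B (k + 1)) →
  ∃ e, v ∈ e ∧ cx M x e ∧ Has M x y J q e

/-- Uses h_IDX, h_EDG, h_DEG, h_PAR, h_WW0. Step at a vertex `v` of `C_X` which is on no face at `y`: if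
one edge of `C_X` at `v` has a face of the pure class `q`, all (both) have. Proof: the edges of `U` at `v`
are the edges of `C_X` at `v` (a `J`-edge at `v` would put `v` on a face at `y`), exactly two (h_DEG (5));
an edge of `C_X` with a face of class `q` separates `S` = faces of class `q` (its other face contains `x`);
all separating edges are in `U`; h_PAR. -/
def STE_stmt : Prop := ∀ (V F : Type) [Fintype V] [Fintype F] (M : PMap V F) (x y : V)
  (J : Finset F), TopW M x y J → ∀ q, Pure M x y J q →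
  ∀ v, (¬ ∃ B, OnV M.toCyc B y ∧ OnV M.toCyc B v) → ∀ e e', v ∈ e → v ∈ e' → cx M x e →
    cx M x e' → Has M x y J q e → Has M x y J q e'

/-- Hyp.: STE (h_IDX, h_EDG, h_WW0). Walk along `A ∋ x` (`u = ww M x A`): from an edge
`s(u i, u (i+1))`, `1 ≤ i`, `i + 1 < len A`, with a face of the pure class `q`, downwards to `i1` and
upwards to `i2`, where `u i1` is on a face at `y` or `i1 = 1`, `u i2` is on a face at `y` or
`i2 = len A - 1`. -/
def WLXW_stmt : Prop := ∀ (V F : Type) [Fintype V] [Fintype F] (M : PMap V F) (x y : V)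
  (J : Finset F), TopW M x y J → ∀ q, Pure M x y J q →
  ∀ A, OnV M.toCyc A x → ∀ i, 1 ≤ i → i + 1 < M.len A →
    Has M x y J q s(ww M x A i, ww M x A (i + 1)) →
  ∃ i1 i2, 1 ≤ i1 ∧ i1 ≤ i ∧ i + 1 ≤ i2 ∧ i2 < M.len A ∧
    ((∃ B, OnV M.toCyc B y ∧ OnV M.toCyc B (ww M x A i1)) ∨ i1 = 1) ∧
    ((∃ B, OnV M.toCyc B y ∧ OnV M.toCyc B (ww M x A i2)) ∨ i2 + 1 = M.len A) ∧
    Has M x y J q s(ww M x A i1, ww M x A (i1 + 1)) ∧
    Has M x y J q s(ww M x A (i2 - 1), ww M x A i2)

/-- Hyp.: WLKW, VYSW (h_EDG, h_WW0). Every pure class has a face on an edge of `C_X`: `S` = faces of class `q`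
is neither empty nor everything, so (`conn`) some edge separates it; the edge is in `U`; if it is of the
second kind, WLKW gives a gap `k1` and VYSW at `v = w k1` an edge of `C_X`. -/
def CXE_stmt : Prop := ∀ (V F : Type) [Fintype V] [Fintype F] (M : PMap V F) (x y : V)
  (J : Finset F), TopW M x y J → ∀ q, Pure M x y J q → ∃ e, cx M x e ∧ Has M x y J q e

/-- Hyp.: STE (h_IDX, h_EDG, h_DEG, h_WW0). Closure. Let `q` be pure and `T` a set of faces at `x` such that
(1) some edge of `C_X` on some face of `T` has a face of class `q`, and (2) for every vertex `v` on an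
edge of `C_X` on a face `A ∈ T` with `Has q`, `v` is on no face at `y`, and all faces at `x` containing `v`
are in `T`. This is impossible. Proof: if `A ∈ T` has one edge of `C_X` with `Has q` then all of them have
(walk along `A` with STE: all `u 1, ..., u (n-1)` are on no face at `y`); at the neighbours `u 1`, `u (n-1)` of
`x` the other face `A'` at `x` has an edge of `C_X` at it (h_DEG (5), `len ≥ 3`), which has `Has q` (STE), and
`A' ∈ T`. By `link` at `x` every face at `x` is in `T` with all its edges of `C_X` having `Has q`, so no vertex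
on a face at `x` is on a face at `y`, against `j0`, `jn`. -/
def CLO_stmt : Prop := ∀ (V F : Type) [Fintype V] [Fintype F] (M : PMap V F) (x y : V)
  (J : Finset F), TopW M x y J → ∀ q, Pure M x y J q → ∀ T : Set F,
  (∃ A e, A ∈ T ∧ OnV M.toCyc A x ∧ OnE M.toCyc A e ∧ x ∉ e ∧ Has M x y J q e) →
  ¬ (∀ A e v, A ∈ T → OnV M.toCyc A x → OnE M.toCyc A e → x ∉ e → Has M x y J q e → v ∈ e →
      (¬ ∃ B, OnV M.toCyc B y ∧ OnV M.toCyc B v) ∧
      ∀ A', OnV M.toCyc A' x → OnV M.toCyc A' v → A' ∈ T)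

/-- The unshared neighbour `s` of `x` has an edge of `C_X` with a face of class `q`. -/
def SP {V F : Type} (M : PMap V F) (x y : V) (J : Finset F)
    (q : Quot (lk M (inU M x y J))) : Prop :=
  ∃ s, Adj M.toCyc x s ∧ (¬ ∃ B, OnV M.toCyc B y ∧ OnV M.toCyc B s) ∧
    ∃ e, s ∈ e ∧ cx M x e ∧ Has M x y J q e

/-- Hyp.: CXE, CLO, WLXW, WLKW, VXSW (h_IDX, h_EDG, h_WW0). A pure class is across two different gaps, or
across one gap and has an unshared neighbour of `x`. Proof: by CXE and CLO (with `T` = all faces at `x`) some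
edge `e` of `C_X` with `Has q` has an end on a face at `y` (in `J` by `ja`); VXSW and WLKW give a gap. Let
`e = s(u i, u (i+1))` on `A ∋ x`; WLXW gives `i1, i2`. If `u i1` and `u i2` are on faces at `y` (so of `J`),
two different gaps as in CLS (copy from Pool/Agent/helper69/NR/CLS.lean). Otherwise say `u i1` is not,
`i1 = 1`: `u 1` is a neighbour of `x`, and `SP`. -/
def CLSW_stmt : Prop := ∀ (V F : Type) [Fintype V] [Fintype F] (M : PMap V F) (x y : V)
  (J : Finset F), TopW M x y J → ∀ q, Pure M x y J q →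
  (∃ c1 ∈ gaps M x y J, ∃ c2 ∈ gaps M x y J, c1 ≠ c2 ∧
    Has M x y J q s(ww M y c1.1 c1.2, ww M y c1.1 (c1.2 + 1)) ∧
    Has M x y J q s(ww M y c2.1 c2.2, ww M y c2.1 (c2.2 + 1))) ∨
  ((∃ c1 ∈ gaps M x y J, Has M x y J q s(ww M y c1.1 c1.2, ww M y c1.1 (c1.2 + 1))) ∧
    SP M x y J q)

/-- `A ∋ x`, `s` an unshared neighbour of `x` on `A`, the edge of `C_X` of `A` at `s` has a face of class `q`. -/
def RL {V F : Type} (M : PMap V F) (x y : V) (J : Finset F)
    (q : Quot (lk M (inU M x y J))) (A : F) (s : V) : Prop :=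
  OnV M.toCyc A x ∧ Adj M.toCyc x s ∧ OnV M.toCyc A s ∧
    (¬ ∃ B, OnV M.toCyc B y ∧ OnV M.toCyc B s) ∧
    ∃ e, s ∈ e ∧ x ∉ e ∧ OnE M.toCyc A e ∧ Has M x y J q e

/-- Hyp.: STE, CLO, WLXW (h_IDX, h_EDG, h_DEG, h_WW0). For a pure class `q` with `SP`: at least two pairs
`(A, s)` with `RL` and `A ∈ XM M x y` (`A` meets a face at `y`). Proof: the number of all pairs with `RL` is even:
`s` is on exactly two faces at `x` (h_DEG (2)) and `RL` holds for both or none (STE; each has an edge of `C_X` at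
`s`). The number of pairs with `A` not in `XM` is even: such an `A` has exactly two neighbours of `x`,
`u 1`, `u (n-1)`, both unshared, and `RL` holds for both or none (walk along `A` by STE). So the number for
`A ∈ XM` is even. It is not `0`: otherwise CLO with `T` = the faces `A ∋ x` not in `XM` with an edge of `C_X`
having `Has q` (all its vertices are unshared; if `A' ∋ x` contains a vertex `v` of such an edge, then `A' = A`
or `v` is a neighbour of `x` (h_DEG (1)) and `RL A' v` by STE, so `A'` is not in `XM` and has such an edge);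
(1) of CLO: from `SP` and `RL`. -/
def RL2_stmt : Prop := ∀ (V F : Type) [Fintype V] [Fintype F] (M : PMap V F) (x y : V)
  (J : Finset F), TopW M x y J → ∀ q, Pure M x y J q → SP M x y J q →
  2 ≤ (univ.filter (fun p : F × V => p.1 ∈ XM M x y ∧ RL M x y J q p.1 p.2)).card

/-- Hyp.: RL2 (h_IDX, h_EDG, h_DEG, h_WW0). For different pure classes the sets of pairs `(A, s)` with `RL` are
disjoint (the edge of `C_X` of `A` at `s` is unique as `x ∉ e`, and has only one face besides `A`). The pairs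
`(A, s)`, `A ∈ XM`, `s` an unshared neighbour of `x` on `A`, number `2 |XM| - 2 |sX|`: every `A` has exactly two
neighbours of `x` (h_DEG (3)), every `s ∈ sX` is on exactly two faces at `x` (h_DEG (2)), both in `XM`. -/
def RHO_stmt : Prop := ∀ (V F : Type) [Fintype V] [Fintype F] (M : PMap V F) (x y : V)
  (J : Finset F), TopW M x y J →
  Set.ncard {q | Pure M x y J q ∧ SP M x y J q} + (sX M x y).card ≤ (XM M x y).card

/-- Hyp.: XCLW, CLSW, RHO. At most two classes are not pure (XCLW). The pure classes across at least two gaps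
(`g1`) and the others (`g2`, across at least one gap, with `SP`): a gap is across at most one pure class (its
edge has two faces, one of them at `y`), so `2 g1 + g2 ≤ #gaps`; `g2 ≤ |XM| - |sX|` by RHO. -/
def CCTW_stmt : Prop := ∀ (V F : Type) [Fintype V] [Fintype F] (M : PMap V F) (x y : V)
  (J : Finset F), TopW M x y J →
  2 * Nat.card (Quot (lk M (inU M x y J))) + (sX M x y).card ≤
    4 + (gaps M x y J).card + (XM M x y).card

/-- Hyp.: CNTW, GCNW, CCTW (h_LIN; compare TOP, Pool/Agent/helper65/NR/TOP.lean).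
`J = XM M y x` satisfies TopW. `χ + G ≤ #classes`. -/
def TOPW_stmt : Prop := ∀ (V F : Type) [Fintype V] [Fintype F] (M : PMap V F) (x y : V),
  (∀ f, ¬ (OnV M.toCyc f x ∧ OnV M.toCyc f y)) → (XM M y x).Nonempty →
  2 * chi M.toCyc + ∑ B ∈ XM M y x, (((shV M x B).card : ℤ) - (shE M x B).card - 1) +
    (sX M x y).card ≤ 4 + (XM M x y).card

/-- Hyp.: GEW, FRM, TOPW (h_PCF, h_PCN: no common face, no common neighbour). If there is no such path:
`2 χ + (N - |sX| - |XM M y x|) + |sX| ≤ 4 + |XM M x y|` and `N ≥ |XM M x y| + |XM M y x| + 8`, so `χ ≤ -2`. -/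
def FINW_stmt : Prop := ∀ (V F : Type) [Fintype V] [Fintype F] (M : PMap V F), -1 ≤ chi M.toCyc →
  ∀ x y : V, NRXY M.toCyc x y

end Pool.Agent.helper84.NR
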